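import Pool.Agent.H88.CL.Targets

/-!
Module ITA: bounds for the iterates.
-/

set_option autoImplicit false

namespace Pool.Agent.H14.CL

open Pool.Agent.H88.CL

theorem lip_of {d : ℕ} {L : ℝ} {F : E d → E d} (hF : ContDiff ℝ 2 F)
    (hb : ∀ x, ‖fderiv ℝ F x‖ ≤ L) (x y : E d) : ‖F x - F y‖ ≤ L * ‖x - y‖ :=
  (convex_univ : Convex ℝ (Set.univ : Set (E d))).norm_image_sub_le_of_norm_fderiv_le
    (𝕜 := ℝ) (fun z _ => (hF.differentiable (by norm_num)) z) (fun z _ => hb z)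
    (Set.mem_univ y) (Set.mem_univ x)

theorem pf_ITA : T_ITA := by
  intro d L F F' hC l
  have hL0 : 0 ≤ L := by linarith [hC.two]
  induction l with
  | zero =>
    refine ⟨contDiff_id, fun x => ?_, fun x y => ?_, fun x y => ?_⟩
    · rw [Function.iterate_zero, pow_zero]
      rw [fderiv_id]
      exact ContinuousLinearMap.norm_id_le
    · simp
    · simp
  | succ l ih =>
    obtain ⟨h1, h2, h3, h4⟩ := ih
    have hc : ContDiff ℝ 2 (F ∘ F^[l]) := hC.c2.comp h1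
    rw [Function.iterate_succ']
    refine ⟨hc, fun x => ?_, fun x y => ?_, fun x y => ?_⟩
    · rw [fderiv_comp x ((hC.c2.differentiable (by norm_num)) _)
        ((h1.differentiable (by norm_num)) x), pow_succ']
      exact (ContinuousLinearMap.opNorm_comp_le _ _).trans
        (mul_le_mul (hC.b _) (h2 x) (norm_nonneg _) hL0)
    · calc ‖(F ∘ F^[l]) x - (F ∘ F^[l]) y‖ ≤ L * ‖F^[l] x - F^[l] y‖ := lip_of hC.c2 hC.b _ _
        _ ≤ L * (L ^ l * ‖x - y‖) := mul_le_mul_of_nonneg_left (h3 x y) hL0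
        _ = L ^ (l + 1) * ‖x - y‖ := by ring
    · have h5 : ‖F^[l] x - F^[l] y‖ ≤ L * ‖(F ∘ F^[l]) x - (F ∘ F^[l]) y‖ := by
        have h6 := lip_of hC.c2' hC.b' (F (F^[l] x)) (F (F^[l] y))
        rw [hC.li, hC.li] at h6
        exact h6
      calc ‖x - y‖ ≤ L ^ l * ‖F^[l] x - F^[l] y‖ := h4 x y
        _ ≤ L ^ l * (L * ‖(F ∘ F^[l]) x - (F ∘ F^[l]) y‖) :=
          mul_le_mul_of_nonneg_left h5 (pow_nonneg hL0 l)
        _ = L ^ (l + 1) * ‖(F ∘ F^[l]) x - (F ∘ F^[l]) y‖ := by ring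

end Pool.Agent.H14.CL
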