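import Pool.Agent.H88.CL.Targets

/-!
Module ITL: the iterates and the lattice.
-/

set_option autoImplicit false

namespace Pool.Agent.H14.CL

open Pool.Agent.H88.CL

theorem lat_step {d : ℕ} {F F' : E d → E d} (h : IsLift d F F') (x y : E d) :
    F x - F y ∈ Lat d ↔ x - y ∈ Lat d := by
  constructor
  · intro h1
    have h2 := h.per' (F y) (F x - F y) h1
    rw [add_sub_cancel, h.li, h.li] at h2
    exact h2
  · intro h1
    have h2 := h.per y (x - y) h1
    rw [add_sub_cancel] at h2
    exact h2

theorem pf_ITL : T_ITL := by
  intro d F F' h l x y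
  induction l with
  | zero => rfl
  | succ l ih =>
    rw [Function.iterate_succ_apply', Function.iterate_succ_apply', lat_step h, ih]

end Pool.Agent.H14.CL
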